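import Pool.Agent.TH255.CX.Defs

set_option autoImplicit false

namespace Pool.Agent.TH255.CX

open Finset

section dh

variable {n : ℕ}

theorem dh_nonneg (σ τ : Equiv.Perm (Fin n)) : 0 ≤ dh σ τ := by unfold dh; positivity

theorem dh_self (σ : Equiv.Perm (Fin n)) : dh σ σ = 0 := by simp [dh]

theorem dh_comm (σ τ : Equiv.Perm (Fin n)) : dh σ τ = dh τ σ := by
  unfold dh
  congr 3
  ext j
  simp [eq_comm]

theorem dh_triangle (σ τ ρ : Equiv.Perm (Fin n)) : dh σ ρ ≤ dh σ τ + dh τ ρ := by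
  unfold dh
  rw [← add_div]
  gcongr
  rw [← Nat.cast_add]
  have : (univ.filter fun j => σ j ≠ ρ j) ⊆
      (univ.filter fun j => σ j ≠ τ j) ∪ (univ.filter fun j => τ j ≠ ρ j) := by
    intro j
    simp only [mem_filter, mem_univ, true_and, mem_union]
    intro h
    by_contra hc
    push Not at hc
    exact h (hc.1.trans hc.2)
  exact_mod_cast (card_le_card this).trans (card_union_le _ _)

theorem dh_mul_left (ρ σ τ : Equiv.Perm (Fin n)) : dh (ρ * σ) (ρ * τ) = dh σ τ := by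
  unfold dh
  congr 3
  ext j
  simp [Equiv.Perm.mul_apply]

theorem dh_mul_right (ρ σ τ : Equiv.Perm (Fin n)) : dh (σ * ρ) (τ * ρ) = dh σ τ := by
  unfold dh
  congr 2
  refine card_bij (fun j _ => ρ j) ?_ ?_ ?_
  · intro j hj
    simpa [Equiv.Perm.mul_apply] using hj
  · intro a _ b _ h
    exact ρ.injective h
  · intro j hj
    refine ⟨ρ⁻¹ j, ?_, by simp⟩
    simpa [Equiv.Perm.mul_apply] using hj

theorem dh_inv_inv (σ τ : Equiv.Perm (Fin n)) : dh σ⁻¹ τ⁻¹ = dh σ τ := by
  rw [← dh_mul_left σ, ← dh_mul_right τ, dh_comm σ τ]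
  congr 1 <;> group

theorem dh_inv_one (σ : Equiv.Perm (Fin n)) : dh σ⁻¹ 1 = dh σ 1 := by
  conv_lhs => rw [← inv_one]
  rw [dh_inv_inv]

theorem dh_conj_one (ρ σ : Equiv.Perm (Fin n)) : dh (ρ⁻¹ * σ * ρ) 1 = dh σ 1 := by
  have h1 : (1 : Equiv.Perm (Fin n)) = ρ⁻¹ * 1 * ρ := by group
  conv_lhs => rw [h1]
  rw [dh_mul_right, dh_mul_left]

theorem dh_pos {σ τ : Equiv.Perm (Fin n)} (h : σ ≠ τ) : 0 < dh σ τ := by
  have hj : ∃ j, σ j ≠ τ j := by
    by_contra hc
    push Not at hc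
    exact h (Equiv.ext hc)
  obtain ⟨j, hj⟩ := hj
  have hn : 0 < n := by
    rcases Nat.eq_zero_or_pos n with h0 | h0
    · subst h0; exact j.elim0
    · exact h0
  unfold dh
  have : 0 < (univ.filter fun j => σ j ≠ τ j).card := card_pos.2 ⟨j, by simpa using hj⟩
  positivity

theorem dh_eq_inv_mul (σ τ : Equiv.Perm (Fin n)) : dh (σ⁻¹ * τ) 1 = dh σ τ := by
  rw [← dh_mul_left σ, mul_inv_cancel_left, mul_one, dh_comm]

end dh

section words

variable {G : Type} [Group G]

/-- product over a window -/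
def win (g : ℤ → G) (l : ℕ) (s : ℤ) : G := ((List.range l).map fun j : ℕ => g (s + (j : ℤ))).prod

theorem win_succ (g : ℤ → G) (l : ℕ) (s : ℤ) : win g (l + 1) s = win g l s * g (s + l) := by
  simp [win, List.range_succ]

theorem win_succ' (g : ℤ → G) (l : ℕ) (s : ℤ) : win g (l + 1) s = g s * win g l (s + 1) := by
  induction l generalizing s with
  | zero => simp [win]
  | succ l ih =>
    rw [win_succ, ih, win_succ, mul_assoc]
    congr 3
    push_cast
    ring

theorem win_shift (g : ℤ → G) (l : ℕ) (hg : ∀ i, g (i + l) = g i) (s : ℤ) :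
    win g l (s + 1) = (g s)⁻¹ * win g l s * g s := by
  have h1 := win_succ g l s
  rw [win_succ', hg] at h1
  rw [mul_assoc, ← h1]
  group

theorem win_inv (g : ℤ → G) (l : ℕ) (s : ℤ) :
    ((List.range l).map fun j : ℕ => (g (s - (j : ℤ)))⁻¹).prod = (win g l (s - l + 1))⁻¹ := by
  induction l with
  | zero => simp [win]
  | succ l ih =>
    rw [List.range_succ, List.map_append, List.prod_append, ih]
    have e : s - ((l + 1 : ℕ) : ℤ) + 1 = s - l := by push_cast; ring
    rw [e, win_succ', mul_inv_rev]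
    simp

theorem win_per (g : ℤ → G) (l : ℕ) (hg : ∀ i, g (i + l) = g i) (s : ℤ) :
    win g l (s - l + 1) = win g l (s + 1) := by
  unfold win
  congr 1
  refine List.map_congr_left fun j _ => ?_
  rw [← hg (s - l + 1 + j)]
  congr 1
  ring

theorem win_add (g : ℤ → G) (a b : ℕ) (s : ℤ) : win g (a + b) s = win g a s * win g b (s + a) := by
  induction b with
  | zero => simp [win]
  | succ b ih =>
    rw [← add_assoc, win_succ, ih, win_succ, mul_assoc]
    congr 3
    push_cast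
    ring

end words

variable (X : PC)

theorem fwd_eq {n : ℕ} (α : X.E → Equiv.Perm (Fin n)) (p : X.P) (s : ℕ) :
    X.fwd α p s = win (fun i => α (X.bd p i)) (X.per p) s := rfl

theorem dh_fwd {n : ℕ} (α : X.E → Equiv.Perm (Fin n)) (p : X.P) (s : ℕ) :
    dh (X.fwd α p s) 1 = dh (X.fwd α p 0) 1 := by
  induction s with
  | zero => rfl
  | succ s ih =>
    rw [← ih, fwd_eq, fwd_eq]
    push_cast
    rw [win_shift _ _ (fun i => by rw [X.bd_per]), dh_conj_one]

theorem dh_bwd {n : ℕ} (α : X.E → Equiv.Perm (Fin n)) (hα : X.IsC1 α) (p : X.P) (s : ℕ) :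
    dh (X.bwd α p s) 1 = dh (X.fwd α p 0) 1 := by
  have e : X.bwd α p s = (X.fwd α p (s + 1))⁻¹ := by
    have h1 := win_inv (fun i => α (X.bd p i)) (X.per p) s
    rw [win_per _ _ (fun i => by rw [X.bd_per])] at h1
    rw [fwd_eq]
    push_cast
    rw [← h1]
    unfold PC.bwd
    congr 1
    refine List.map_congr_left fun j _ => ?_
    exact hα _
  rw [e, dh_inv_one, dh_fwd]

theorem normδ1_eq {n : ℕ} (α : X.E → Equiv.Perm (Fin n)) (hα : X.IsC1 α) :
    X.normδ1 α = ∑ p, X.μ2 p * dh (X.fwd α p 0) 1 := by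
  unfold PC.normδ1
  refine sum_congr rfl fun p _ => ?_
  congr 1
  have h1 : ∑ s ∈ range (X.per p), (dh (X.fwd α p s) 1 + dh (X.bwd α p s) 1) =
      ∑ s ∈ range (X.per p), 2 * dh (X.fwd α p 0) 1 := by
    refine sum_congr rfl fun s _ => ?_
    rw [dh_fwd, dh_bwd X α hα]
    ring
  rw [h1, sum_const, card_range, nsmul_eq_mul]
  have h2 : (0 : ℝ) < X.per p := by exact_mod_cast X.per_pos p
  field_simp

theorem isC1_δ0 {n : ℕ} (β : X.V → Equiv.Perm (Fin n)) : X.IsC1 (X.δ0 β) := by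
  intro e
  unfold PC.δ0 PC.ter
  rw [X.inv_inv]
  group

end Pool.Agent.TH255.CX
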