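import Pool.Agent.TH255.CX.Gen

set_option autoImplicit false

namespace Pool.Agent.TH255.CX

open Finset

/-- the vertex number `i` of the triangle number `k` of the chain -/
def vtx {m : ℕ} (k : Fin m) (i : ZMod 3) : Fin (2 * m + 1) :=
  ⟨2 * k + i.val, by have := k.2; have := ZMod.val_lt i; omega⟩

/-- polygons over the chain of `m` triangles: `t` says which triangle the polygon runs around, `w`
how many times, `μ` is its probability -/
structure CD (m : ℕ) where
  P : Type
  fP : Fintype P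
  t : P → Fin m
  w : P → ℕ
  wpos : ∀ p, 0 < w p
  μ : P → ℝ
  μpos : ∀ p, 0 < μ p
  μsum : ∑ p, μ p = 1

attribute [instance] CD.fP

/-- The chain of `m` triangles: the vertices are `0, 1, …, 2 m`; the triangle number `k` has the
vertices `2 k, 2 k + 1, 2 k + 2`. -/
@[reducible] def chain {m : ℕ} (D : CD m) : PC where
  V := Fin (2 * m + 1)
  E := Fin m × ZMod 3 × Bool
  P := D.P
  fV := inferInstance
  fE := inferInstance
  fP := D.fP
  org e := vtx e.1 (if e.2.2 = true then e.2.1 else e.2.1 + 1)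
  inv e := (e.1, e.2.1, !e.2.2)
  inv_inv e := by simp
  inv_ne e h := by
    have := congrArg (fun x : Fin m × ZMod 3 × Bool => x.2.2) h
    simp at this
  per p := 3 * D.w p
  per_pos p := by have := D.wpos p; omega
  bd p i := (D.t p, (i : ZMod 3), true)
  bd_per p i := by
    have h3 : ((3 : ℕ) : ZMod 3) = 0 := ZMod.natCast_self 3
    have : ((i + ((3 * D.w p : ℕ) : ℤ) : ℤ) : ZMod 3) = (i : ZMod 3) := by
      push_cast
      have h4 : (3 : ZMod 3) = 0 := h3
      rw [h4]
      ring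
    rw [this]
  bd_path p i := by simp
  bd_red p i h := by
    have := congrArg (fun x : Fin m × ZMod 3 × Bool => x.2.2) h
    simp at this
  μ2 := D.μ
  μ2_pos := D.μpos
  μ2_sum := D.μsum

variable {m : ℕ} (D : CD m)

open Classical in
/-- the probability of the triangle number `k` -/
noncomputable def Q (k : Fin m) : ℝ := ∑ p, if D.t p = k then D.μ p else 0

theorem lies_chain (e : (chain D).E) (p : (chain D).P) : (chain D).Lies e p ↔ D.t p = e.1 := by
  unfold PC.Lies
  constructor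
  · rintro ⟨i, h | h⟩
    · rw [← h]
    · have := congrArg (fun x : Fin m × ZMod 3 × Bool => x.1) h
      exact this
  · intro h
    obtain ⟨k, i, o⟩ := e
    have h' : D.t p = k := h
    obtain ⟨j, hj⟩ := ZMod.intCast_surjective i
    refine ⟨j, ?_⟩
    cases o
    · right
      change (D.t p, (j : ZMod 3), true) = (k, i, !false)
      rw [h', hj]
      rfl
    · left
      change (D.t p, (j : ZMod 3), true) = (k, i, true)
      rw [h', hj]

theorem w1_chain (e : (chain D).E) : (chain D).w1 e = Q D e.1 := by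
  classical
  unfold PC.w1 Q
  refine sum_congr rfl fun p _ => ?_
  simp only [lies_chain]

theorem sum_Q : ∑ k, Q D k = 1 := by
  classical
  unfold Q
  rw [sum_comm]
  simp only [sum_ite_eq, mem_univ, if_true]
  exact D.μsum

theorem sum_zmod3 (f : ZMod 3 → ℝ) : ∑ i, f i = f 0 + f 1 + f 2 := Fin.sum_univ_three f

theorem sum_E (f : Fin m × ZMod 3 × Bool → ℝ) :
    ∑ e : (chain D).E, f e = ∑ k : Fin m, ∑ i : ZMod 3, (f (k, i, true) + f (k, i, false)) := by
  change ∑ e : Fin m × ZMod 3 × Bool, f e = _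
  rw [Fintype.sum_prod_type]
  refine sum_congr rfl fun k _ => ?_
  rw [Fintype.sum_prod_type]
  refine sum_congr rfl fun i _ => ?_
  rw [Fintype.sum_bool]

theorem sum_w1_chain : ∑ e, (chain D).w1 e = 6 := by
  have h1 : ∑ e, (chain D).w1 e = ∑ e : (chain D).E, (fun x : Fin m × ZMod 3 × Bool => Q D x.1) e :=
    sum_congr rfl fun e _ => w1_chain D e
  rw [h1, sum_E]
  simp only [sum_zmod3]
  have : ∀ k : Fin m, (Q D k + Q D k + (Q D k + Q D k) + (Q D k + Q D k)) = 6 * Q D k := by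
    intro k; ring
  simp only [this]
  rw [← mul_sum, sum_Q, mul_one]

theorem μ1_chain (e : (chain D).E) : (chain D).μ1 e = Q D e.1 / 6 := by
  unfold PC.μ1
  rw [sum_w1_chain, w1_chain]

theorem sum_μ1_chain : ∑ e, (chain D).μ1 e = 1 := by
  apply sum_μ1
  rw [sum_w1_chain]
  norm_num

/-- the total variation of a `0`-cochain around a triangle -/
noncomputable def var {n : ℕ} (β : (chain D).V → Equiv.Perm (Fin n)) (k : Fin m) : ℝ :=
  dh (β (vtx k 0)) (β (vtx k 1)) + dh (β (vtx k 1)) (β (vtx k 2)) + dh (β (vtx k 2)) (β (vtx k 0))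

theorem var_nonneg {n : ℕ} (β : (chain D).V → Equiv.Perm (Fin n)) (k : Fin m) : 0 ≤ var D β k :=
  add_nonneg (add_nonneg (dh_nonneg _ _) (dh_nonneg _ _)) (dh_nonneg _ _)

theorem norm_δ0_chain {n : ℕ} (β : (chain D).V → Equiv.Perm (Fin n)) :
    (chain D).d1 ((chain D).δ0 β) (fun _ => 1) = ∑ k, Q D k * var D β k / 3 := by
  rw [d1_δ0]
  have h1 : ∑ e, (chain D).μ1 e * dh (β ((chain D).org e)) (β ((chain D).ter e)) =
      ∑ e : (chain D).E, (fun x : Fin m × ZMod 3 × Bool => Q D x.1 / 6 *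
        dh (β ((chain D).org x)) (β ((chain D).ter x))) e :=
    sum_congr rfl fun e _ => by rw [μ1_chain]
  rw [h1, sum_E]
  refine sum_congr rfl fun k _ => ?_
  rw [sum_zmod3]
  have t1 : ∀ i : ZMod 3, (chain D).ter (k, i, true) = vtx k (i + 1) := fun i => rfl
  have t2 : ∀ i : ZMod 3, (chain D).ter (k, i, false) = vtx k i := fun i => rfl
  simp only [t1, t2, if_true, Bool.false_eq_true, if_false]
  have e1 : (0 : ZMod 3) + 1 = 1 := rfl
  have e2 : (1 : ZMod 3) + 1 = 2 := rfl
  have e3 : (2 : ZMod 3) + 1 = 0 := rfl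
  rw [e1, e2, e3]
  unfold var
  rw [dh_comm (β (vtx k 1)) (β (vtx k 0)), dh_comm (β (vtx k 2)) (β (vtx k 1)),
    dh_comm (β (vtx k 0)) (β (vtx k 2))]
  ring

theorem dist_root {n : ℕ} (β : (chain D).V → Equiv.Perm (Fin n)) (hm : 0 < m) (k : ℕ) (hk : k < m) :
    dh (β (vtx ⟨k, hk⟩ 0)) (β (vtx ⟨0, hm⟩ 0)) ≤
      ∑ j ∈ univ.filter (fun j : Fin m => (j : ℕ) < k), var D β j := by
  induction k with
  | zero => rw [dh_self]; exact sum_nonneg fun j _ => var_nonneg D β j
  | succ k ih =>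
    have hk' : k < m := by omega
    have e : vtx (⟨k + 1, hk⟩ : Fin m) 0 = vtx ⟨k, hk'⟩ 2 := by
      apply Fin.ext
      simp only [vtx]
      have h0 : ZMod.val (0 : ZMod 3) = 0 := rfl
      have h2 : ZMod.val (2 : ZMod 3) = 2 := rfl
      rw [h0, h2]
      omega
    rw [e]
    have h1 := dh_triangle (β (vtx (⟨k, hk'⟩ : Fin m) 2)) (β (vtx ⟨k, hk'⟩ 0)) (β (vtx ⟨0, hm⟩ 0))
    have h2 := ih hk'
    have h3 : dh (β (vtx (⟨k, hk'⟩ : Fin m) 2)) (β (vtx ⟨k, hk'⟩ 0)) ≤ var D β ⟨k, hk'⟩ := by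
      unfold var
      have := dh_nonneg (β (vtx (⟨k, hk'⟩ : Fin m) 0)) (β (vtx ⟨k, hk'⟩ 1))
      have := dh_nonneg (β (vtx (⟨k, hk'⟩ : Fin m) 1)) (β (vtx ⟨k, hk'⟩ 2))
      linarith
    have h4 : univ.filter (fun j : Fin m => (j : ℕ) < k + 1) =
        insert ⟨k, hk'⟩ (univ.filter (fun j : Fin m => (j : ℕ) < k)) := by
      ext j
      simp only [mem_filter, mem_univ, true_and, mem_insert, Fin.ext_iff]
      omega
    rw [h4, sum_insert (by simp)]
    linarith

theorem dist_root' {n : ℕ} (β : (chain D).V → Equiv.Perm (Fin n)) (hm : 0 < m) (k : Fin m)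
    (i : ZMod 3) :
    dh (β (vtx k i)) (β (vtx ⟨0, hm⟩ 0)) ≤
      ∑ j ∈ univ.filter (fun j : Fin m => j ≤ k), var D β j := by
  have h1 := dist_root D β hm k k.2
  have h2 : dh (β (vtx k i)) (β (vtx k 0)) ≤ var D β k := by
    have a1 := dh_nonneg (β (vtx k 0)) (β (vtx k 1))
    have a2 := dh_nonneg (β (vtx k 1)) (β (vtx k 2))
    have a3 := dh_nonneg (β (vtx k 2)) (β (vtx k 0))
    unfold var
    have hi : i = 0 ∨ i = 1 ∨ i = 2 := by revert i; decide
    rcases hi with rfl | rfl | rfl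
    · rw [dh_self]; linarith
    · rw [dh_comm]; linarith
    · linarith
  have h3 := dh_triangle (β (vtx k i)) (β (vtx k 0)) (β (vtx ⟨0, hm⟩ 0))
  have h4 : univ.filter (fun j : Fin m => j ≤ k) =
      insert k (univ.filter (fun j : Fin m => (j : ℕ) < k)) := by
    ext j
    simp only [mem_filter, mem_univ, true_and, mem_insert, Fin.ext_iff, Fin.le_def]
    omega
  rw [h4, sum_insert (by simp)]
  linarith

theorem h0_chain (hm : 0 < m) (hQ : ∀ k, 0 < Q D k)
    (hQ2 : ∀ j, ∑ k ∈ univ.filter (fun k : Fin m => j ≤ k), Q D k ≤ 2 * Q D j) :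
    1 / 12 ≤ (chain D).h0 := by
  have hvv : vtx (⟨0, hm⟩ : Fin m) 0 ≠ vtx ⟨0, hm⟩ 1 := by
    intro h
    have := congrArg Fin.val h
    simp only [vtx] at this
    have h0 : ZMod.val (0 : ZMod 3) = 0 := rfl
    have h1 : ZMod.val (1 : ZMod 3) = 1 := rfl
    rw [h0, h1] at this
    omega
  refine le_h0 (chain D) _ _ hvv ?_ _ (by norm_num) ?_
  · intro x
    -- each vertex is on a triangle
    have hx : ∃ (k : Fin m) (i : ZMod 3), vtx k i = x := by
      by_cases hxm : (x : ℕ) = 2 * m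
      · refine ⟨⟨m - 1, by omega⟩, 2, ?_⟩
        apply Fin.ext
        simp only [vtx]
        have h2 : ZMod.val (2 : ZMod 3) = 2 := rfl
        rw [h2, hxm]
        omega
      · have hx2 := x.2
        rcases Nat.even_or_odd' (x : ℕ) with ⟨c, hc | hc⟩
        · refine ⟨⟨c, by omega⟩, 0, ?_⟩
          apply Fin.ext
          simp only [vtx]
          have h2 : ZMod.val (0 : ZMod 3) = 0 := rfl
          rw [h2, hc]
          omega
        · refine ⟨⟨c, by omega⟩, 1, ?_⟩
          apply Fin.ext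
          simp only [vtx]
          have h2 : ZMod.val (1 : ZMod 3) = 1 := rfl
          rw [h2, hc]
    obtain ⟨k, i, hki⟩ := hx
    refine μ0_pos (chain D) x (k, i, true) hki ?_
    rw [μ1_chain]
    have := hQ k
    positivity
  · intro n hn β
    refine ⟨β (vtx ⟨0, hm⟩ 0), ?_⟩
    have h1 := sum_μ0_le (chain D) (sum_μ1_chain D) (fun x => dh (β x) (β (vtx ⟨0, hm⟩ 0)))
      (fun x => dh_nonneg _ _)
    have h2 : ∑ e, (chain D).μ1 e * dh (β ((chain D).org e)) (β (vtx ⟨0, hm⟩ 0)) =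
        ∑ e : (chain D).E, (fun x : Fin m × ZMod 3 × Bool => Q D x.1 / 6 *
          dh (β ((chain D).org x)) (β (vtx ⟨0, hm⟩ 0))) e :=
      sum_congr rfl fun e _ => by rw [μ1_chain]
    have h3 : ∑ e, (chain D).μ1 e * dh (β ((chain D).org e)) (β (vtx ⟨0, hm⟩ 0)) ≤
        ∑ k, Q D k * ∑ j ∈ univ.filter (fun j : Fin m => j ≤ k), var D β j := by
      rw [h2, sum_E]
      refine sum_le_sum fun k _ => ?_
      have h4 : ∀ x : (chain D).V, (∃ i, x = vtx k i) →
          dh (β x) (β (vtx ⟨0, hm⟩ 0)) ≤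
            ∑ j ∈ univ.filter (fun j : Fin m => j ≤ k), var D β j := by
        rintro x ⟨i, rfl⟩
        exact dist_root' D β hm k i
      have h5 : ∀ i : ZMod 3, Q D k / 6 * dh (β ((chain D).org (k, i, true))) (β (vtx ⟨0, hm⟩ 0)) +
          Q D k / 6 * dh (β ((chain D).org (k, i, false))) (β (vtx ⟨0, hm⟩ 0)) ≤
          Q D k / 3 * ∑ j ∈ univ.filter (fun j : Fin m => j ≤ k), var D β j := by
        intro i
        have a := h4 ((chain D).org (k, i, true)) ⟨i, rfl⟩
        have b := h4 ((chain D).org (k, i, false)) ⟨i + 1, rfl⟩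
        have c := (hQ k).le
        have a' := mul_le_mul_of_nonneg_left a (by positivity : 0 ≤ Q D k / 6)
        have b' := mul_le_mul_of_nonneg_left b (by positivity : 0 ≤ Q D k / 6)
        linarith
      refine (sum_le_sum fun i _ => h5 i).trans (le_of_eq ?_)
      rw [sum_zmod3]
      ring
    have h6 : ∑ k, Q D k * ∑ j ∈ univ.filter (fun j : Fin m => j ≤ k), var D β j ≤
        ∑ j, 2 * Q D j * var D β j := by
      have : ∑ k, Q D k * ∑ j ∈ univ.filter (fun j : Fin m => j ≤ k), var D β j =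
          ∑ j, (∑ k ∈ univ.filter (fun k : Fin m => j ≤ k), Q D k) * var D β j := by
        simp only [mul_sum, sum_mul, sum_filter]
        rw [sum_comm]
        refine sum_congr rfl fun j _ => sum_congr rfl fun k _ => ?_
        split_ifs <;> simp
      rw [this]
      exact sum_le_sum fun j _ => mul_le_mul_of_nonneg_right (hQ2 j) (var_nonneg D β j)
    rw [norm_δ0_chain]
    have h7 : ∑ j, 2 * Q D j * var D β j = 6 * ∑ k, Q D k * var D β k / 3 := by
      rw [mul_sum]
      refine sum_congr rfl fun j _ => ?_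
      ring
    have h8 : (chain D).d0 β (fun _ => β (vtx ⟨0, hm⟩ 0)) =
        ∑ x, (chain D).μ0 x * dh (β x) (β (vtx ⟨0, hm⟩ 0)) := rfl
    rw [h8]
    have h9 : ∑ x, (chain D).μ0 x * dh (β x) (β (vtx ⟨0, hm⟩ 0)) ≤
        12 * ∑ k, Q D k * var D β k / 3 := by
      refine h1.trans ?_
      linarith
    linarith

end Pool.Agent.TH255.CX
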