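import Pool.Agent.TH255.CX.Chain

set_option autoImplicit false

namespace Pool.Agent.TH255.CX

open Finset

variable {m : ℕ} (D : CD m)

/-- the holonomy of a `1`-cochain around the triangle number `k` -/
def hol {n : ℕ} (α : (chain D).E → Equiv.Perm (Fin n)) (k : Fin m) : Equiv.Perm (Fin n) :=
  α (k, 0, true) * α (k, 1, true) * α (k, 2, true)

theorem win_pow {G : Type} [Group G] (g : ℤ → G) (hg : ∀ i, g (i + 3) = g i) (w : ℕ) :
    win g (3 * w) 0 = (g 0 * g 1 * g 2) ^ w := by
  have hper : ∀ (w : ℕ) (i : ℤ), g (i + 3 * w) = g i := by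
    intro w
    induction w with
    | zero => intro i; simp
    | succ w ih =>
      intro i
      have : i + 3 * ((w + 1 : ℕ) : ℤ) = (i + 3 * (w : ℤ)) + 3 := by push_cast; ring
      rw [this, hg, ih]
  induction w with
  | zero => simp [win]
  | succ w ih =>
    rw [mul_add, mul_one, win_add, ih, pow_succ]
    congr 1
    have h0 := hper w 0
    have h1 := hper w 1
    have h2 := hper w 2
    simp only [win, List.range_succ, List.range_zero, List.nil_append, List.map_append,
      List.map_cons, List.map_nil, List.prod_append, List.prod_cons, List.prod_nil, mul_one]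
    push_cast
    have e0 : (0 : ℤ) + 3 * (w : ℤ) + 0 = 0 + 3 * w := by ring
    have e1 : (0 : ℤ) + 3 * (w : ℤ) + 1 = 1 + 3 * w := by ring
    have e2 : (0 : ℤ) + 3 * (w : ℤ) + 2 = 2 + 3 * w := by ring
    simp only [e0, e1, e2, h0, h1, h2]

theorem fwd_chain {n : ℕ} (α : (chain D).E → Equiv.Perm (Fin n)) (p : (chain D).P) :
    (chain D).fwd α p 0 = hol D α (D.t p) ^ (D.w p) := by
  have h := win_pow (fun i : ℤ => α (D.t p, (i : ZMod 3), true)) (fun i => by
    have h4 : (3 : ZMod 3) = 0 := rfl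
    have : ((i + 3 : ℤ) : ZMod 3) = (i : ZMod 3) := by
      push_cast
      rw [h4, add_zero]
    simp only [this]) (D.w p)
  rw [fwd_eq]
  simp only [Int.cast_zero, Int.cast_one, Int.cast_ofNat] at h
  exact h

theorem normδ1_chain {n : ℕ} (α : (chain D).E → Equiv.Perm (Fin n)) (hα : (chain D).IsC1 α) :
    (chain D).normδ1 α = ∑ p, D.μ p * dh (hol D α (D.t p) ^ (D.w p)) 1 := by
  rw [normδ1_eq _ _ hα]
  refine sum_congr rfl fun p _ => ?_
  rw [fwd_chain]

/-- the value of the `1`-cochain at the step number `j` of the spine `0, 1, 2, …` of the chain -/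
def stp {n : ℕ} (α : (chain D).E → Equiv.Perm (Fin n)) (j : ℕ) : Equiv.Perm (Fin n) :=
  if h : j / 2 < m then α (⟨j / 2, h⟩, if j % 2 = 0 then 0 else 1, true) else 1

/-- integration of a `1`-cochain along the spine -/
def integ {n : ℕ} (α : (chain D).E → Equiv.Perm (Fin n)) (j : ℕ) : Equiv.Perm (Fin n) :=
  ((List.range j).map (stp D α)).prod

theorem integ_succ {n : ℕ} (α : (chain D).E → Equiv.Perm (Fin n)) (j : ℕ) :
    integ D α (j + 1) = integ D α j * stp D α j := by
  simp [integ, List.range_succ]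

theorem integ_vtx {n : ℕ} (α : (chain D).E → Equiv.Perm (Fin n)) (k : Fin m) :
    integ D α (vtx k 1 : Fin (2 * m + 1)) = integ D α (vtx k 0 : Fin (2 * m + 1)) * α (k, 0, true) ∧
    integ D α (vtx k 2 : Fin (2 * m + 1)) = integ D α (vtx k 1 : Fin (2 * m + 1)) * α (k, 1, true) := by
  have v0 : ((vtx k 0 : Fin (2 * m + 1)) : ℕ) = 2 * k := by
    simp only [vtx]
    have : ZMod.val (0 : ZMod 3) = 0 := rfl
    rw [this]; omega
  have v1 : ((vtx k 1 : Fin (2 * m + 1)) : ℕ) = 2 * k + 1 := by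
    simp only [vtx]
    have : ZMod.val (1 : ZMod 3) = 1 := rfl
    rw [this]
  have v2 : ((vtx k 2 : Fin (2 * m + 1)) : ℕ) = 2 * k + 1 + 1 := by
    simp only [vtx]
    have : ZMod.val (2 : ZMod 3) = 2 := rfl
    rw [this]
  have hk := k.2
  rw [v0, v1, v2]
  constructor
  · rw [integ_succ]
    congr 1
    have h1 : 2 * (k : ℕ) / 2 = k := by omega
    have h2 : 2 * (k : ℕ) % 2 = 0 := by omega
    unfold stp
    simp only [h1, h2, hk, dif_pos, if_true]
  · rw [integ_succ]
    congr 1
    have h1 : (2 * (k : ℕ) + 1) / 2 = k := by omega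
    have h2 : ¬ (2 * (k : ℕ) + 1) % 2 = 0 := by omega
    unfold stp
    simp only [h1, h2, hk, dif_pos, if_false]

theorem d1_integ {n : ℕ} (α : (chain D).E → Equiv.Perm (Fin n)) (hα : (chain D).IsC1 α) :
    (chain D).d1 α ((chain D).δ0 fun x => integ D α (x : Fin (2 * m + 1))) =
      ∑ k, Q D k * dh (hol D α k) 1 / 3 := by
  set β : (chain D).V → Equiv.Perm (Fin n) := fun x => integ D α (x : Fin (2 * m + 1)) with hβ
  unfold PC.d1
  have h1 : ∑ e, (chain D).μ1 e * dh (α e) ((chain D).δ0 β e) =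
      ∑ e : (chain D).E, (fun x : Fin m × ZMod 3 × Bool => Q D x.1 / 6 *
        dh (α x) ((chain D).δ0 β x)) e :=
    sum_congr rfl fun e _ => by rw [μ1_chain]
  rw [h1, sum_E]
  refine sum_congr rfl fun k _ => ?_
  have hinv : ∀ i : ZMod 3, dh (α (k, i, false)) ((chain D).δ0 β (k, i, false)) =
      dh (α (k, i, true)) ((chain D).δ0 β (k, i, true)) := by
    intro i
    have a : α (k, i, false) = (α (k, i, true))⁻¹ := hα (k, i, true)
    have b : (chain D).δ0 β (k, i, false) = ((chain D).δ0 β (k, i, true))⁻¹ :=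
      isC1_δ0 (chain D) β (k, i, true)
    rw [a, b, dh_inv_inv]
  obtain ⟨i1, i2⟩ := integ_vtx D α k
  have d0 : (chain D).δ0 β (k, 0, true) = α (k, 0, true) := by
    change (integ D α (vtx k 0 : Fin (2 * m + 1)))⁻¹ * integ D α (vtx k 1 : Fin (2 * m + 1)) = _
    rw [i1]; group
  have d1 : (chain D).δ0 β (k, 1, true) = α (k, 1, true) := by
    change (integ D α (vtx k 1 : Fin (2 * m + 1)))⁻¹ * integ D α (vtx k 2 : Fin (2 * m + 1)) = _
    rw [i2]; group
  have d2 : (chain D).δ0 β (k, 2, true) = (α (k, 0, true) * α (k, 1, true))⁻¹ := by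
    change (integ D α (vtx k 2 : Fin (2 * m + 1)))⁻¹ * integ D α (vtx k 0 : Fin (2 * m + 1)) = _
    rw [i2, i1]; group
  have e2 : dh (α (k, 2, true)) (α (k, 0, true) * α (k, 1, true))⁻¹ = dh (hol D α k) 1 := by
    rw [← dh_mul_left (α (k, 0, true) * α (k, 1, true))]
    unfold hol
    rw [mul_inv_cancel]
  rw [sum_zmod3]
  simp only [hinv]
  rw [d0, d1, d2, e2, dh_self, dh_self]
  ring

theorem h1_chain (hm : 0 < m) (hQ : ∀ k, 0 < Q D k)
    (hW : ∀ (k : Fin m) (n : ℕ) (σ : Equiv.Perm (Fin n)),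
      1 / 2 * Q D k * dh σ 1 ≤ ∑ p ∈ univ.filter (fun p => D.t p = k), D.μ p * dh (σ ^ (D.w p)) 1) :
    3 / 2 ≤ (chain D).h1 := by
  classical
  refine le_h1 (chain D) ?_ ?_ _ (by norm_num) ?_
  · refine ⟨fun _ => Equiv.swap 0 1, fun e => by rw [Equiv.swap_inv], ?_⟩
    rintro ⟨β, hβ⟩
    have h0 := congrFun hβ ((⟨0, hm⟩, 0, true) : Fin m × ZMod 3 × Bool)
    have h1 := congrFun hβ ((⟨0, hm⟩, 1, true) : Fin m × ZMod 3 × Bool)
    have h2 := congrFun hβ ((⟨0, hm⟩, 2, true) : Fin m × ZMod 3 × Bool)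
    have g0 : Equiv.swap (0 : Fin 2) 1 = (β (vtx ⟨0, hm⟩ 0))⁻¹ * β (vtx ⟨0, hm⟩ 1) := h0
    have g1 : Equiv.swap (0 : Fin 2) 1 = (β (vtx ⟨0, hm⟩ 1))⁻¹ * β (vtx ⟨0, hm⟩ 2) := h1
    have g2 : Equiv.swap (0 : Fin 2) 1 = (β (vtx ⟨0, hm⟩ 2))⁻¹ * β (vtx ⟨0, hm⟩ 0) := h2
    have h3 : Equiv.swap (0 : Fin 2) 1 * Equiv.swap (0 : Fin 2) 1 * Equiv.swap (0 : Fin 2) 1 = 1 := by
      nth_rewrite 1 [g0]
      nth_rewrite 1 [g1]
      rw [g2]
      group
    have h4 := congrArg (fun τ : Equiv.Perm (Fin 2) => τ 0) h3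
    simp at h4
  · intro e
    rw [μ1_chain]
    have := hQ e.1
    positivity
  · intro n hn α hα
    refine ⟨fun x => integ D α (x : Fin (2 * m + 1)), ?_⟩
    rw [d1_integ D α hα, normδ1_chain D α hα]
    have h1 : ∑ p, D.μ p * dh (hol D α (D.t p) ^ (D.w p)) 1 =
        ∑ k, ∑ p ∈ univ.filter (fun p => D.t p = k), D.μ p * dh (hol D α k ^ (D.w p)) 1 := by
      rw [← sum_fiberwise univ D.t]
      refine sum_congr rfl fun k _ => sum_congr rfl fun p hp => ?_
      rw [(mem_filter.1 hp).2]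
    rw [h1, mul_sum]
    refine sum_le_sum fun k _ => ?_
    have := hW k n (hol D α k)
    linarith

theorem chain_connected : (chain D).Connected := by
  refine ⟨⟨(⟨0, by omega⟩ : Fin (2 * m + 1))⟩, ?_⟩
  have key : ∀ j : ℕ, ∀ hj : j < 2 * m + 1,
      Relation.ReflTransGen (fun a b => ∃ e, (chain D).org e = a ∧ (chain D).ter e = b)
        (⟨0, by omega⟩ : Fin (2 * m + 1)) ⟨j, hj⟩ ∧
      Relation.ReflTransGen (fun a b => ∃ e, (chain D).org e = a ∧ (chain D).ter e = b)
        (⟨j, hj⟩ : Fin (2 * m + 1)) ⟨0, by omega⟩ := by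
    intro j
    induction j with
    | zero => intro hj; exact ⟨.refl, .refl⟩
    | succ j ih =>
      intro hj
      obtain ⟨h1, h2⟩ := ih (by omega)
      have step : ∃ e, (chain D).org e = (⟨j, by omega⟩ : Fin (2 * m + 1)) ∧
          (chain D).ter e = (⟨j + 1, hj⟩ : Fin (2 * m + 1)) := by
        rcases Nat.even_or_odd' j with ⟨c, hc | hc⟩
        · refine ⟨((⟨c, by omega⟩, 0, true) : Fin m × ZMod 3 × Bool), ?_, ?_⟩
          · apply Fin.ext
            change 2 * c + ZMod.val (0 : ZMod 3) = j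
            have : ZMod.val (0 : ZMod 3) = 0 := rfl
            omega
          · apply Fin.ext
            change 2 * c + ZMod.val (1 : ZMod 3) = j + 1
            have : ZMod.val (1 : ZMod 3) = 1 := rfl
            omega
        · refine ⟨((⟨c, by omega⟩, 1, true) : Fin m × ZMod 3 × Bool), ?_, ?_⟩
          · apply Fin.ext
            change 2 * c + ZMod.val (1 : ZMod 3) = j
            have : ZMod.val (1 : ZMod 3) = 1 := rfl
            omega
          · apply Fin.ext
            change 2 * c + ZMod.val (2 : ZMod 3) = j + 1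
            have : ZMod.val (2 : ZMod 3) = 2 := rfl
            omega
      obtain ⟨e, he1, he2⟩ := step
      refine ⟨h1.tail ⟨e, he1, he2⟩, Relation.ReflTransGen.head ⟨(chain D).inv e, he2, ?_⟩ h2⟩
      unfold PC.ter
      rw [(chain D).inv_inv]
      exact he1
  intro x y
  exact (key x x.2).2.trans (key y y.2).1

theorem chain_degree (x : (chain D).V) : (chain D).degree x ≤ 4 := by
  classical
  unfold PC.degree
  let f : (Fin m × ZMod 3 × Bool) → ℕ × Bool := fun e =>
    (((if e.2.2 = true then e.2.1 else e.2.1 + 1 : ZMod 3)).val, e.2.2)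
  let T : Finset (ℕ × Bool) :=
    ((range 3).filter fun r => r % 2 = (x : Fin (2 * m + 1)).val % 2) ×ˢ (univ : Finset Bool)
  have hT : T.card ≤ 4 := by
    have h2 : ((range 3).filter fun r => r % 2 = (x : Fin (2 * m + 1)).val % 2).card ≤ 2 := by
      rcases Nat.mod_two_eq_zero_or_one (x : Fin (2 * m + 1)).val with h | h <;> rw [h] <;> decide
    have h3 : T.card = ((range 3).filter fun r => r % 2 = (x : Fin (2 * m + 1)).val % 2).card * 2 := by
      rw [card_product, card_univ, Fintype.card_bool]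
    omega
  have horg : ∀ e : Fin m × ZMod 3 × Bool, (chain D).org e = x →
      2 * (e.1 : ℕ) + (f e).1 = (x : Fin (2 * m + 1)).val := by
    intro e he
    rw [← he]
    rfl
  refine le_trans (card_le_card_of_injOn f ?_ ?_) hT
  · intro e he
    have he' : (chain D).org e = x := by simpa using he
    have h1 := horg e he'
    have h2 : (f e).1 < 3 := ZMod.val_lt (n := 3) _
    simp only [T, coe_product, Set.mem_prod, coe_filter, mem_range, Set.mem_ofPred_eq, coe_univ,
      Set.mem_univ, and_true]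
    omega
  · intro e he e' he' hee
    have h1 := horg e (by simpa using he)
    have h2 := horg e' (by simpa using he')
    have h3 : (f e).1 = (f e').1 := by rw [hee]
    have h4 : e.2.2 = e'.2.2 := congrArg (fun q : ℕ × Bool => q.2) hee
    have h5 : e.1 = e'.1 := by
      apply Fin.ext
      omega
    have h6 : (if e.2.2 = true then e.2.1 else e.2.1 + 1 : ZMod 3) =
        (if e'.2.2 = true then e'.2.1 else e'.2.1 + 1 : ZMod 3) := ZMod.val_injective 3 h3
    rw [h4] at h6
    have h7 : e.2.1 = e'.2.1 := by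
      split_ifs at h6
      · exact h6
      · exact add_right_cancel h6
    exact Prod.ext h5 (Prod.ext h7 h4)

end Pool.Agent.TH255.CX
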