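import Mathlib

/-!
# Finite polygonal complexes and their Cheeger constants with permutation coefficients
-/

set_option autoImplicit false

namespace Pool.Agent.TH255.CX

open Finset

/-- A finite polygonal complex together with a probability distribution on its polygons.
`V` are the vertices, `E` the oriented edges (`inv e` is the edge `e` with the other orientation,
`org e` its origin), `P` the polygons.  The polygon `p` has perimeter `per p` and is attached along
the closed path `bd p 0, bd p 1, …, bd p (per p - 1)`; it is convenient to read the closed path as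
a periodic sequence `bd p : ℤ → E`.  `bd_path` says that it is a path, `bd_red` that it is
cyclically reduced. -/
structure PC where
  V : Type
  E : Type
  P : Type
  fV : Fintype V
  fE : Fintype E
  fP : Fintype P
  org : E → V
  inv : E → E
  inv_inv : ∀ e, inv (inv e) = e
  inv_ne : ∀ e, inv e ≠ e
  per : P → ℕ
  per_pos : ∀ p, 0 < per p
  bd : P → ℤ → E
  bd_per : ∀ p i, bd p (i + per p) = bd p i
  bd_path : ∀ p i, org (bd p (i + 1)) = org (inv (bd p i))
  bd_red : ∀ p i, bd p (i + 1) ≠ inv (bd p i)
  μ2 : P → ℝ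
  μ2_pos : ∀ p, 0 < μ2 p
  μ2_sum : ∑ p, μ2 p = 1

attribute [instance] PC.fV PC.fE PC.fP

variable (X : PC)

/-- the end point of an oriented edge -/
def PC.ter (e : X.E) : X.V := X.org (X.inv e)

open Classical in
/-- the degree of a vertex: the number of edges at it (a loop counts twice) -/
noncomputable def PC.degree (x : X.V) : ℕ := (univ.filter fun e => X.org e = x).card

/-- connectedness -/
def PC.Connected : Prop :=
  Nonempty X.V ∧ ∀ x y : X.V, Relation.ReflTransGen (fun a b => ∃ e, X.org e = a ∧ X.ter e = b) x y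

/-- the distribution on the polygons is uniform -/
def PC.Uniform : Prop := ∀ p, X.μ2 p = 1 / (Fintype.card X.P : ℝ)

/-- the edge `e` (with one of its orientations) lies on the boundary of the polygon `p` -/
def PC.Lies (e : X.E) (p : X.P) : Prop := ∃ i, X.bd p i = e ∨ X.bd p i = X.inv e

/-- no two polygons are attached along the same closed path (up to the choice of the starting point
and of the direction) -/
def PC.Distinct : Prop :=
  ∀ p p' : X.P, X.per p = X.per p' →
    (∃ s : ℤ, (∀ i, X.bd p' i = X.bd p (i + s)) ∨ (∀ i, X.bd p' i = X.inv (X.bd p (s - i)))) →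
    p = p'

/-- isomorphism of polygonal complexes (the distributions are ignored) -/
def PC.Iso (X Y : PC) : Prop :=
  ∃ (fV : X.V ≃ Y.V) (fE : X.E ≃ Y.E) (fP : X.P ≃ Y.P),
    (∀ e, Y.org (fE e) = fV (X.org e)) ∧ (∀ e, fE (X.inv e) = Y.inv (fE e)) ∧
    (∀ p, Y.per (fP p) = X.per p) ∧
    ∀ p, ∃ s : ℤ, (∀ i, Y.bd (fP p) i = fE (X.bd p (i + s))) ∨
      (∀ i, Y.bd (fP p) i = fE (X.inv (X.bd p (s - i))))

open Classical in
/-- the weight of an oriented edge, before normalization: the measure of the polygons containing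
the edge -/
noncomputable def PC.w1 (e : X.E) : ℝ := ∑ p, if X.Lies e p then X.μ2 p else 0

/-- the distribution on the oriented edges which descends from `μ2` -/
noncomputable def PC.μ1 (e : X.E) : ℝ := X.w1 e / ∑ e', X.w1 e'

open Classical in
/-- the weight of a vertex, before normalization: the measure of the edges containing the vertex -/
noncomputable def PC.w0 (x : X.V) : ℝ := ∑ e, if X.org e = x ∨ X.ter e = x then X.μ1 e else 0

/-- the distribution on the vertices which descends from `μ1` -/
noncomputable def PC.μ0 (x : X.V) : ℝ := X.w0 x / ∑ x', X.w0 x'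

/-- the normalized Hamming distance of permutations -/
noncomputable def dh {n : ℕ} (σ τ : Equiv.Perm (Fin n)) : ℝ :=
  ((univ.filter fun j => σ j ≠ τ j).card : ℝ) / n

/-- `α` is a `1`-cochain -/
def PC.IsC1 {n : ℕ} (α : X.E → Equiv.Perm (Fin n)) : Prop := ∀ e, α (X.inv e) = (α e)⁻¹

/-- the coboundary of a `0`-cochain -/
def PC.δ0 {n : ℕ} (β : X.V → Equiv.Perm (Fin n)) : X.E → Equiv.Perm (Fin n) :=
  fun e => (β (X.org e))⁻¹ * β (X.ter e)

/-- the coboundary of a `1`-cochain `α` at the oriented polygon which starts with the edge number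
`s` of the polygon `p` and runs forwards -/
def PC.fwd {n : ℕ} (α : X.E → Equiv.Perm (Fin n)) (p : X.P) (s : ℕ) : Equiv.Perm (Fin n) :=
  ((List.range (X.per p)).map fun j : ℕ => α (X.bd p ((s : ℤ) + (j : ℤ)))).prod

/-- the coboundary of a `1`-cochain `α` at the oriented polygon which starts with the inverse of the
edge number `s` of the polygon `p` and runs backwards -/
def PC.bwd {n : ℕ} (α : X.E → Equiv.Perm (Fin n)) (p : X.P) (s : ℕ) : Equiv.Perm (Fin n) :=
  ((List.range (X.per p)).map fun j : ℕ => α (X.inv (X.bd p ((s : ℤ) - (j : ℤ))))).prod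

/-- the norm of the coboundary of a `1`-cochain: the expectation of the distance to the identity,
over the oriented polygons; a polygon of perimeter `l` has `2 l` orientations -/
noncomputable def PC.normδ1 {n : ℕ} (α : X.E → Equiv.Perm (Fin n)) : ℝ :=
  ∑ p, X.μ2 p * ((∑ s ∈ range (X.per p), (dh (X.fwd α p s) 1 + dh (X.bwd α p s) 1)) /
    (2 * (X.per p : ℝ)))

/-- the distance of `1`-cochains -/
noncomputable def PC.d1 {n : ℕ} (α α' : X.E → Equiv.Perm (Fin n)) : ℝ :=
  ∑ e, X.μ1 e * dh (α e) (α' e)

/-- the distance of `0`-cochains -/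
noncomputable def PC.d0 {n : ℕ} (β β' : X.V → Equiv.Perm (Fin n)) : ℝ :=
  ∑ x, X.μ0 x * dh (β x) (β' x)

/-- The set of the quotients whose infimum is `h_0^B(X, Sym)`: all `‖δβ‖ / d(β, B^0)`, `β` a
`0`-cochain with values in `Sym(n)`, `n ≥ 1`, which is not constant. -/
def PC.ratios0 : Set ℝ :=
  {r | ∃ n : ℕ, 1 ≤ n ∧ ∃ β : X.V → Equiv.Perm (Fin n), (¬ ∃ σ, β = fun _ => σ) ∧
    r = X.d1 (X.δ0 β) (fun _ => 1) / ⨅ σ : Equiv.Perm (Fin n), X.d0 β (fun _ => σ)}

/-- The set of the quotients whose infimum is `h_1^B(X, Sym)`: all `‖δα‖ / d(α, B^1)`, `α` a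
`1`-cochain with values in `Sym(n)`, `n ≥ 1`, which is not a coboundary. -/
def PC.ratios1 : Set ℝ :=
  {r | ∃ n : ℕ, 1 ≤ n ∧ ∃ α : X.E → Equiv.Perm (Fin n), X.IsC1 α ∧
    (¬ ∃ β : X.V → Equiv.Perm (Fin n), α = X.δ0 β) ∧
    r = X.normδ1 α / ⨅ β : X.V → Equiv.Perm (Fin n), X.d1 α (X.δ0 β)}

/-- `h_0^B(X, Sym)` -/
noncomputable def PC.h0 : ℝ := sInf X.ratios0

/-- `h_1^B(X, Sym)` -/
noncomputable def PC.h1 : ℝ := sInf X.ratios1

end Pool.Agent.TH255.CX
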