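import Pool.Agent.TH255.CX.Inf

set_option autoImplicit false

namespace Pool.Agent.TH255.CX

open Finset

variable (X : PC)

theorem lies_inv (e : X.E) (p : X.P) : X.Lies (X.inv e) p ↔ X.Lies e p := by
  unfold PC.Lies
  rw [X.inv_inv]
  constructor <;> rintro ⟨i, h⟩ <;> exact ⟨i, h.symm⟩

theorem w1_inv (e : X.E) : X.w1 (X.inv e) = X.w1 e := by
  classical
  unfold PC.w1
  refine sum_congr rfl fun p _ => ?_
  simp only [lies_inv]

theorem μ1_inv (e : X.E) : X.μ1 (X.inv e) = X.μ1 e := by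
  unfold PC.μ1
  rw [w1_inv]

/-- the reversal as an equivalence -/
def invEquiv : X.E ≃ X.E := ⟨X.inv, X.inv, X.inv_inv, X.inv_inv⟩

theorem sum_inv (f : X.E → ℝ) : ∑ e, f (X.inv e) = ∑ e, f e := Equiv.sum_comp (invEquiv X) f

theorem d1_δ0 {n : ℕ} (β : X.V → Equiv.Perm (Fin n)) :
    X.d1 (X.δ0 β) (fun _ => 1) = ∑ e, X.μ1 e * dh (β (X.org e)) (β (X.ter e)) := by
  unfold PC.d1 PC.δ0
  refine sum_congr rfl fun e _ => ?_
  rw [dh_eq_inv_mul]

theorem sum_μ0_le (hs : ∑ e, X.μ1 e = 1) (f : X.V → ℝ) (hf : ∀ x, 0 ≤ f x) :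
    ∑ x, X.μ0 x * f x ≤ 2 * ∑ e, X.μ1 e * f (X.org e) := by
  classical
  have h1 : (1 : ℝ) ≤ ∑ x, X.w0 x := by
    unfold PC.w0
    rw [sum_comm, ← hs]
    refine sum_le_sum fun e _ => ?_
    have h2 : (if X.org e = X.org e ∨ X.ter e = X.org e then X.μ1 e else 0) ≤
        ∑ x, if X.org e = x ∨ X.ter e = x then X.μ1 e else 0 := by
      refine single_le_sum (f := fun x => if X.org e = x ∨ X.ter e = x then X.μ1 e else 0)
        (fun x _ => ?_) (mem_univ (X.org e))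
      split_ifs
      · exact μ1_nonneg X e
      · exact le_rfl
    simpa using h2
  have h3 : ∑ x, X.w0 x * f x ≤ 2 * ∑ e, X.μ1 e * f (X.org e) := by
    have h4 : ∑ x, X.w0 x * f x ≤ ∑ x, ∑ e, ((if X.org e = x then X.μ1 e * f x else 0) +
        (if X.ter e = x then X.μ1 e * f x else 0)) := by
      refine sum_le_sum fun x _ => ?_
      unfold PC.w0
      rw [sum_mul]
      refine sum_le_sum fun e _ => ?_
      have h5 : 0 ≤ X.μ1 e * f x := mul_nonneg (μ1_nonneg X e) (hf x)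
      by_cases ha : X.org e = x <;> by_cases hb : X.ter e = x <;> simp [ha, hb, h5]
    refine h4.trans (le_of_eq ?_)
    rw [sum_comm]
    simp only [sum_add_distrib, sum_ite_eq, mem_univ, if_true]
    have h6 : ∑ e, X.μ1 e * f (X.ter e) = ∑ e, X.μ1 e * f (X.org e) := by
      rw [← sum_inv X (fun e => X.μ1 e * f (X.org e))]
      refine sum_congr rfl fun e _ => ?_
      rw [μ1_inv]
      rfl
    rw [h6]
    ring
  have h7 : ∑ x, X.μ0 x * f x = (∑ x, X.w0 x * f x) / ∑ x, X.w0 x := by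
    rw [sum_div]
    refine sum_congr rfl fun x _ => ?_
    unfold PC.μ0
    ring
  rw [h7]
  have h8 : 0 ≤ ∑ x, X.w0 x * f x := sum_nonneg fun x _ => mul_nonneg (w0_nonneg X x) (hf x)
  exact (div_le_self h8 h1).trans h3

theorem μ0_pos (x : X.V) (e : X.E) (he : X.org e = x) (h1 : 0 < X.μ1 e) : 0 < X.μ0 x := by
  classical
  have h2 : 0 < X.w0 x := by
    unfold PC.w0
    refine sum_pos' (fun e _ => ?_) ⟨e, mem_univ _, ?_⟩
    · split_ifs
      · exact μ1_nonneg X e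
      · exact le_rfl
    · simp [he, h1]
  refine div_pos h2 ?_
  exact sum_pos' (fun x _ => w0_nonneg X x) ⟨x, mem_univ _, h2⟩

theorem sum_μ1 (h : 0 < ∑ e, X.w1 e) : ∑ e, X.μ1 e = 1 := by
  unfold PC.μ1
  rw [← sum_div, div_self h.ne']

end Pool.Agent.TH255.CX
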