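import Pool.Agent.TH255.CX.Basic

set_option autoImplicit false

namespace Pool.Agent.TH255.CX

open Finset

variable (X : PC)

theorem w1_nonneg (e : X.E) : 0 ≤ X.w1 e := by
  classical
  unfold PC.w1
  refine sum_nonneg fun p _ => ?_
  split_ifs
  · exact (X.μ2_pos p).le
  · exact le_rfl

theorem μ1_nonneg (e : X.E) : 0 ≤ X.μ1 e :=
  div_nonneg (w1_nonneg X e) (sum_nonneg fun e _ => w1_nonneg X e)

theorem w0_nonneg (x : X.V) : 0 ≤ X.w0 x := by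
  classical
  unfold PC.w0
  refine sum_nonneg fun p _ => ?_
  split_ifs
  · exact μ1_nonneg X p
  · exact le_rfl

theorem μ0_nonneg (x : X.V) : 0 ≤ X.μ0 x :=
  div_nonneg (w0_nonneg X x) (sum_nonneg fun e _ => w0_nonneg X e)

theorem d0_nonneg {n : ℕ} (β β' : X.V → Equiv.Perm (Fin n)) : 0 ≤ X.d0 β β' :=
  sum_nonneg fun x _ => mul_nonneg (μ0_nonneg X x) (dh_nonneg _ _)

theorem d1_nonneg {n : ℕ} (α α' : X.E → Equiv.Perm (Fin n)) : 0 ≤ X.d1 α α' :=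
  sum_nonneg fun x _ => mul_nonneg (μ1_nonneg X x) (dh_nonneg _ _)

theorem d0_pos {n : ℕ} (h0 : ∀ x, 0 < X.μ0 x) {β β' : X.V → Equiv.Perm (Fin n)} (h : β ≠ β') :
    0 < X.d0 β β' := by
  have hx : ∃ x, β x ≠ β' x := by
    by_contra hc
    push Not at hc
    exact h (funext hc)
  obtain ⟨x, hx⟩ := hx
  exact sum_pos' (fun x _ => mul_nonneg (μ0_nonneg X x) (dh_nonneg _ _))
    ⟨x, mem_univ _, mul_pos (h0 x) (dh_pos hx)⟩

theorem d1_pos {n : ℕ} (h1 : ∀ x, 0 < X.μ1 x) {α α' : X.E → Equiv.Perm (Fin n)} (h : α ≠ α') :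
    0 < X.d1 α α' := by
  have hx : ∃ x, α x ≠ α' x := by
    by_contra hc
    push Not at hc
    exact h (funext hc)
  obtain ⟨x, hx⟩ := hx
  exact sum_pos' (fun x _ => mul_nonneg (μ1_nonneg X x) (dh_nonneg _ _))
    ⟨x, mem_univ _, mul_pos (h1 x) (dh_pos hx)⟩

theorem le_h0 (x0 x1 : X.V) (hx : x0 ≠ x1) (h0 : ∀ x, 0 < X.μ0 x) (lam : ℝ) (hlam : 0 ≤ lam)
    (H : ∀ n : ℕ, 1 ≤ n → ∀ β : X.V → Equiv.Perm (Fin n), ∃ σ : Equiv.Perm (Fin n),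
      lam * X.d0 β (fun _ => σ) ≤ X.d1 (X.δ0 β) (fun _ => 1)) : lam ≤ X.h0 := by
  classical
  unfold PC.h0
  refine le_csInf ?_ ?_
  · refine ⟨_, 2, by norm_num, fun x => if x = x0 then Equiv.swap 0 1 else 1, ?_, rfl⟩
    rintro ⟨σ, hσ⟩
    have h1 := congrFun hσ x0
    have h2 := congrFun hσ x1
    simp only [if_true] at h1
    rw [if_neg (Ne.symm hx)] at h2
    rw [← h2] at h1
    have := congrArg (fun τ : Equiv.Perm (Fin 2) => τ 0) h1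
    simp at this
  · rintro r ⟨n, hn, β, hβ, rfl⟩
    obtain ⟨σ0, hσ0⟩ := exists_eq_ciInf_of_finite
      (f := fun σ : Equiv.Perm (Fin n) => X.d0 β (fun _ => σ))
    obtain ⟨σ, hσ⟩ := H n hn β
    have hpos : 0 < ⨅ σ : Equiv.Perm (Fin n), X.d0 β (fun _ => σ) := by
      rw [← hσ0]
      exact d0_pos X h0 fun h => hβ ⟨σ0, h⟩
    rw [le_div_iff₀ hpos]
    refine le_trans (mul_le_mul_of_nonneg_left ?_ hlam) hσ
    exact ciInf_le (Set.finite_range _).bddBelow σ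

theorem le_h1 (hne : ∃ α : X.E → Equiv.Perm (Fin 2), X.IsC1 α ∧
      ¬ ∃ β : X.V → Equiv.Perm (Fin 2), α = X.δ0 β) (h1 : ∀ e, 0 < X.μ1 e)
    (lam : ℝ) (hlam : 0 ≤ lam)
    (H : ∀ n : ℕ, 1 ≤ n → ∀ α : X.E → Equiv.Perm (Fin n), X.IsC1 α →
      ∃ β : X.V → Equiv.Perm (Fin n), lam * X.d1 α (X.δ0 β) ≤ X.normδ1 α) : lam ≤ X.h1 := by
  classical
  unfold PC.h1
  refine le_csInf ?_ ?_
  · obtain ⟨α, h2, h3⟩ := hne
    exact ⟨_, 2, by norm_num, α, h2, h3, rfl⟩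
  · rintro r ⟨n, hn, α, hα, hβ, rfl⟩
    obtain ⟨σ0, hσ0⟩ := exists_eq_ciInf_of_finite
      (f := fun β : X.V → Equiv.Perm (Fin n) => X.d1 α (X.δ0 β))
    obtain ⟨σ, hσ⟩ := H n hn α hα
    have hpos : 0 < ⨅ β : X.V → Equiv.Perm (Fin n), X.d1 α (X.δ0 β) := by
      rw [← hσ0]
      exact d1_pos X h1 fun h => hβ ⟨σ0, h⟩
    rw [le_div_iff₀ hpos]
    refine le_trans (mul_le_mul_of_nonneg_left ?_ hlam) hσ
    exact ciInf_le (Set.finite_range _).bddBelow σ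

end Pool.Agent.TH255.CX
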