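import Pool.Agent.TH255.CX.Chain1

set_option autoImplicit false

namespace Pool.Agent.TH255.CX

open Finset

theorem sum_half (m j : ℕ) (hj : j ≤ m) :
    ∑ k ∈ Ico j m, (1 / 2 : ℝ) ^ k + 2 * (1 / 2 : ℝ) ^ m = 2 * (1 / 2 : ℝ) ^ j := by
  induction m, hj using Nat.le_induction with
  | base => simp
  | succ m hm ih =>
    rw [sum_Ico_succ_top hm, ← ih, pow_succ]
    ring

theorem sum_filter_le {m : ℕ} (j : Fin m) (a : ℕ → ℝ) :
    ∑ k ∈ univ.filter (fun k : Fin m => j ≤ k), a k = ∑ k ∈ Ico (j : ℕ) m, a k := by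
  rw [sum_filter]
  have h1 : ∑ k : Fin m, (if j ≤ k then a k else 0) =
      ∑ k ∈ range m, (if (j : ℕ) ≤ k then a k else 0) := by
    rw [← Fin.sum_univ_eq_sum_range (fun k => if (j : ℕ) ≤ k then a k else 0) m]
    rfl
  rw [h1, ← sum_filter]
  congr 1
  ext k
  simp only [mem_filter, mem_range, mem_Ico]
  omega

theorem tail_bound {m : ℕ} (D : CD m) (C : ℝ) (hC : 0 < C) (hQ : ∀ k : Fin m, Q D k = C * (1 / 2) ^ (k : ℕ))
    (j : Fin m) : ∑ k ∈ univ.filter (fun k : Fin m => j ≤ k), Q D k ≤ 2 * Q D j := by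
  simp only [hQ]
  rw [sum_filter_le j (fun k => C * (1 / 2 : ℝ) ^ k), ← mul_sum]
  have h1 := sum_half m j j.2.le
  have h2 : (0 : ℝ) < (1 / 2) ^ m := by positivity
  nlinarith

/-- the main inequality for both Cheeger constants -/
theorem chain_good {m : ℕ} (hm : 0 < m) (D : CD m) (C : ℝ) (hC : 0 < C)
    (hQ : ∀ k : Fin m, Q D k = C * (1 / 2) ^ (k : ℕ))
    (hW : ∀ (k : Fin m) (n : ℕ) (σ : Equiv.Perm (Fin n)),
      1 / 2 * Q D k * dh σ 1 ≤ ∑ p ∈ univ.filter (fun p => D.t p = k), D.μ p * dh (σ ^ (D.w p)) 1) :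
    1 / 12 ≤ (chain D).h0 ∧ 3 / 2 ≤ (chain D).h1 := by
  have hpos : ∀ k, 0 < Q D k := fun k => by rw [hQ]; positivity
  exact ⟨h0_chain D hm hpos (tail_bound D C hC hQ), h1_chain D hm hpos hW⟩

theorem hW_one {m : ℕ} (D : CD m) (hw : ∀ p, D.w p = 1) (k : Fin m) (n : ℕ)
    (σ : Equiv.Perm (Fin n)) :
    1 / 2 * Q D k * dh σ 1 ≤
      ∑ p ∈ univ.filter (fun p => D.t p = k), D.μ p * dh (σ ^ (D.w p)) 1 := by
  classical
  have h1 : ∑ p ∈ univ.filter (fun p => D.t p = k), D.μ p * dh (σ ^ (D.w p)) 1 =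
      Q D k * dh σ 1 := by
    unfold Q
    rw [← sum_filter, sum_mul]
    refine sum_congr ?_ fun p _ => by rw [hw, pow_one]
    ext p
    simp
  rw [h1]
  have h2 : 0 ≤ Q D k := by
    unfold Q
    refine sum_nonneg fun p _ => ?_
    split_ifs
    · exact (D.μpos p).le
    · exact le_rfl
  have h3 := dh_nonneg σ 1
  nlinarith [mul_nonneg h2 h3]

/-! ### geometric weights -/

/-- one triangle each, with probabilities proportional to `2 ^ (-k)` -/
noncomputable def geo (m : ℕ) : CD (m + 1) where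
  P := Fin (m + 1)
  fP := inferInstance
  t := id
  w _ := 1
  wpos _ := one_pos
  μ k := (1 / 2 : ℝ) ^ (k : ℕ) / ∑ j : Fin (m + 1), (1 / 2 : ℝ) ^ (j : ℕ)
  μpos k := by
    have : 0 < ∑ j : Fin (m + 1), (1 / 2 : ℝ) ^ (j : ℕ) :=
      sum_pos (fun _ _ => by positivity) univ_nonempty
    positivity
  μsum := by
    have : 0 < ∑ j : Fin (m + 1), (1 / 2 : ℝ) ^ (j : ℕ) :=
      sum_pos (fun _ _ => by positivity) univ_nonempty
    rw [← sum_div, div_self this.ne']

theorem geo_good (m : ℕ) : 1 / 12 ≤ (chain (geo m)).h0 ∧ 3 / 2 ≤ (chain (geo m)).h1 := by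
  have hS : 0 < ∑ j : Fin (m + 1), (1 / 2 : ℝ) ^ (j : ℕ) :=
    sum_pos (fun _ _ => by positivity) univ_nonempty
  refine chain_good (Nat.succ_pos m) (geo m) (1 / ∑ j : Fin (m + 1), (1 / 2 : ℝ) ^ (j : ℕ))
    (by positivity) ?_ (hW_one (geo m) fun _ => rfl)
  intro k
  classical
  unfold Q
  change (∑ p : Fin (m + 1), if p = k then (1 / 2 : ℝ) ^ (p : ℕ) /
    ∑ j : Fin (m + 1), (1 / 2 : ℝ) ^ (j : ℕ) else 0) = _
  rw [sum_ite_eq' univ k]
  simp only [mem_univ, if_true]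
  ring

/-! ### many polygons with the uniform distribution -/

/-- the index set: the triangle number `k` carries `2 ^ (m - k)` polygons -/
abbrev Idx (m : ℕ) : Type := (k : Fin (m + 1)) × Fin (2 ^ (m - (k : ℕ)))

theorem Idx_pos (m : ℕ) : 0 < Fintype.card (Idx m) :=
  Fintype.card_pos_iff.2 ⟨⟨0, ⟨0, by positivity⟩⟩⟩

/-- `2 ^ (m - k)` polygons for the triangle number `k`, with the uniform distribution -/
noncomputable def uni (m : ℕ) (w : Idx m → ℕ) (hw : ∀ p, 0 < w p) : CD (m + 1) where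
  P := Idx m
  fP := inferInstance
  t p := p.1
  w := w
  wpos := hw
  μ _ := 1 / (Fintype.card (Idx m) : ℝ)
  μpos _ := by have := Idx_pos m; positivity
  μsum := by
    have h : (Fintype.card (Idx m) : ℝ) ≠ 0 := by exact_mod_cast (Idx_pos m).ne'
    rw [sum_const, card_univ, nsmul_eq_mul]
    field_simp

theorem uni_filter (m : ℕ) (w : Idx m → ℕ) (hw : ∀ p, 0 < w p) (k : Fin (m + 1)) (f : Idx m → ℝ) :
    ∑ p ∈ univ.filter (fun p => (uni m w hw).t p = k), f p =
      ∑ j : Fin (2 ^ (m - (k : ℕ))), f ⟨k, j⟩ := by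
  classical
  rw [sum_filter]
  change (∑ p : Idx m, if p.1 = k then f p else 0) = _
  rw [Fintype.sum_sigma]
  rw [sum_eq_single k]
  · simp
  · intro b _ hb
    simp [hb]
  · intro h; exact absurd (mem_univ _) h

theorem uni_Q (m : ℕ) (w : Idx m → ℕ) (hw : ∀ p, 0 < w p) (k : Fin (m + 1)) :
    Q (uni m w hw) k = (2 : ℝ) ^ m / (Fintype.card (Idx m) : ℝ) * (1 / 2) ^ (k : ℕ) := by
  classical
  have h1 : Q (uni m w hw) k = ∑ p ∈ univ.filter (fun p => (uni m w hw).t p = k),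
      (fun _ : Idx m => 1 / (Fintype.card (Idx m) : ℝ)) p := by
    unfold Q
    rw [← sum_filter]
    refine sum_congr ?_ fun p _ => rfl
    ext p
    simp
  rw [h1, uni_filter, sum_const, card_univ, Fintype.card_fin, nsmul_eq_mul]
  have hk : (k : ℕ) ≤ m := by have := k.2; omega
  have h2 : (2 : ℝ) ^ m = 2 ^ (m - (k : ℕ)) * 2 ^ (k : ℕ) := by
    rw [← pow_add, Nat.sub_add_cancel hk]
  push_cast
  rw [h2, one_div_pow]
  have h3 : (2 : ℝ) ^ (k : ℕ) ≠ 0 := by positivity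
  field_simp

theorem uni_good (m : ℕ) (w : Idx m → ℕ) (hw : ∀ p, 0 < w p)
    (hW : ∀ (k : Fin (m + 1)) (n : ℕ) (σ : Equiv.Perm (Fin n)),
      1 / 2 * Q (uni m w hw) k * dh σ 1 ≤ ∑ p ∈ univ.filter (fun p => (uni m w hw).t p = k),
        (uni m w hw).μ p * dh (σ ^ ((uni m w hw).w p)) 1) :
    1 / 12 ≤ (chain (uni m w hw)).h0 ∧ 3 / 2 ≤ (chain (uni m w hw)).h1 := by
  have := Idx_pos m
  exact chain_good (Nat.succ_pos m) _ ((2 : ℝ) ^ m / (Fintype.card (Idx m) : ℝ)) (by positivity)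
    (uni_Q m w hw) hW

/-- the powers of a permutation: at least half of them move a given point that is moved by the
permutation -/
theorem count_powers {n : ℕ} (σ : Equiv.Perm (Fin n)) (i : Fin n) (hi : σ i ≠ i) (N : ℕ) :
    N ≤ 2 * ((range N).filter fun j => (σ ^ (j + 1)) i ≠ i).card := by
  classical
  have h1 : ((range N).filter fun j => (σ ^ (j + 1)) i ≠ i).card +
      ((range N).filter fun j => ¬ (σ ^ (j + 1)) i ≠ i).card = N := by
    rw [card_filter_add_card_filter_not, card_range]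
  have h2 : ((range N).filter fun j => ¬ (σ ^ (j + 1)) i ≠ i).card ≤
      ((range N).filter fun j => (σ ^ (j + 1)) i ≠ i).card := by
    refine card_le_card_of_injOn (fun j => j - 1) ?_ ?_
    · intro j hj
      simp only [coe_filter, mem_range, Set.mem_ofPred_eq, not_not] at hj ⊢
      obtain ⟨hj1, hj2⟩ := hj
      have hj0 : j ≠ 0 := by
        rintro rfl
        exact hi (by simpa using hj2)
      obtain ⟨l, rfl⟩ := Nat.exists_eq_succ_of_ne_zero hj0
      refine ⟨by omega, ?_⟩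
      intro h
      have e : l.succ - 1 = l := rfl
      rw [e] at h
      apply hi
      have h3 : (σ ^ (l + 1 + 1)) i = σ ((σ ^ (l + 1)) i) := by
        rw [pow_succ' σ (l + 1), Equiv.Perm.mul_apply]
      rw [h] at h3
      rw [← h3]
      exact hj2
    · intro a ha b hb hab
      simp only [coe_filter, mem_range, Set.mem_ofPred_eq, not_not] at ha hb
      have ha0 : a ≠ 0 := by
        rintro rfl
        exact hi (by simpa using ha.2)
      have hb0 : b ≠ 0 := by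
        rintro rfl
        exact hi (by simpa using hb.2)
      simp only at hab
      omega
  omega

theorem sum_powers {n : ℕ} (σ : Equiv.Perm (Fin n)) (N : ℕ) :
    1 / 2 * (N : ℝ) * dh σ 1 ≤ ∑ j ∈ range N, dh (σ ^ (j + 1)) 1 := by
  classical
  have h1 : ∀ τ : Equiv.Perm (Fin n), dh τ 1 = (∑ i, if τ i ≠ i then (1 : ℝ) else 0) / n := by
    intro τ
    unfold dh
    rw [← sum_filter, sum_const, nsmul_eq_mul, mul_one]
    rfl
  simp only [h1]
  rw [← sum_div, sum_comm, ← mul_div_assoc]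
  gcongr
  rw [mul_sum]
  refine sum_le_sum fun i _ => ?_
  by_cases hi : σ i = i
  · simp only [hi, ne_eq, not_true, if_false, mul_zero]
    refine sum_nonneg fun j _ => ?_
    split_ifs
    · exact le_rfl
    · exact zero_le_one
  · have h2 := count_powers σ i hi N
    simp only [ne_eq, hi, not_false_iff, if_true, mul_one]
    rw [← sum_filter, sum_const, nsmul_eq_mul, mul_one]
    have h3 : (N : ℝ) ≤ 2 * (((range N).filter fun j => (σ ^ (j + 1)) i ≠ i).card : ℝ) := by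
      exact_mod_cast h2
    linarith

/-- repeated triangles -/
noncomputable def rep (m : ℕ) : CD (m + 1) := uni m (fun _ => 1) fun _ => one_pos

/-- polygons running `1, 2, …, 2 ^ (m - k)` times around the triangle number `k` -/
noncomputable def wnd (m : ℕ) : CD (m + 1) := uni m (fun p => (p.2 : ℕ) + 1) fun _ => Nat.succ_pos _

theorem rep_good (m : ℕ) : 1 / 12 ≤ (chain (rep m)).h0 ∧ 3 / 2 ≤ (chain (rep m)).h1 :=
  uni_good m _ _ (hW_one (rep m) fun _ => rfl)

theorem wnd_good (m : ℕ) : 1 / 12 ≤ (chain (wnd m)).h0 ∧ 3 / 2 ≤ (chain (wnd m)).h1 := by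
  refine uni_good m _ _ ?_
  intro k n σ
  change _ ≤ ∑ p ∈ univ.filter (fun p => (uni m (fun p => (p.2 : ℕ) + 1)
    fun _ => Nat.succ_pos _).t p = k),
    (fun p : Idx m => 1 / (Fintype.card (Idx m) : ℝ) * dh (σ ^ ((p.2 : ℕ) + 1)) 1) p
  rw [uni_filter, uni_Q]
  rw [← mul_sum, Fin.sum_univ_eq_sum_range (fun j => dh (σ ^ (j + 1)) 1)]
  have h1 := sum_powers σ (2 ^ (m - (k : ℕ)))
  have hk : (k : ℕ) ≤ m := by have := k.2; omega
  have h2 : (2 : ℝ) ^ m * (1 / 2) ^ (k : ℕ) = ((2 ^ (m - (k : ℕ)) : ℕ) : ℝ) := by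
    have h2' : (2 : ℝ) ^ m = 2 ^ (m - (k : ℕ)) * 2 ^ (k : ℕ) := by
      rw [← pow_add, Nat.sub_add_cancel hk]
    rw [h2', one_div_pow]
    have h3 : (2 : ℝ) ^ (k : ℕ) ≠ 0 := by positivity
    push_cast
    field_simp
  have h4 : (0 : ℝ) < (Fintype.card (Idx m) : ℝ) := by exact_mod_cast Idx_pos m
  have h5 : 1 / 2 * ((2 : ℝ) ^ m / (Fintype.card (Idx m) : ℝ) * (1 / 2) ^ (k : ℕ)) * dh σ 1 =
      1 / (Fintype.card (Idx m) : ℝ) * (1 / 2 * ((2 ^ (m - (k : ℕ)) : ℕ) : ℝ) * dh σ 1) := by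
    rw [← h2]
    ring
  rw [h5]
  exact mul_le_mul_of_nonneg_left h1 (by positivity)

theorem wnd_distinct (m : ℕ) : (chain (wnd m)).Distinct := by
  rintro ⟨k, j⟩ ⟨k', j'⟩ hper ⟨s, h⟩
  have hk : k' = k := by
    rcases h with h | h
    · exact congrArg (fun x : Fin (m + 1) × ZMod 3 × Bool => x.1) (h 0)
    · exact congrArg (fun x : Fin (m + 1) × ZMod 3 × Bool => x.1) (h 0)
  subst hk
  have hj : 3 * ((j : ℕ) + 1) = 3 * ((j' : ℕ) + 1) := hper
  have hj' : j = j' := Fin.ext (by omega)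
  rw [hj']

end Pool.Agent.TH255.CX
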